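import Pool.Agent.H61.Lsp.Gen

set_option autoImplicit false
set_option maxRecDepth 100000

/-! The field with eight elements and a four-stage register over it. -/

namespace Pool.Agent.H61.Lsp

open Pool.Agent.H40.Span

/-- The field with eight elements, `x ↦` coordinates in `1, α, α²` with `α³ = α + 1`. -/
structure F8 where
  v : Fin 8
deriving DecidableEq

namespace F8

def equivFin : Fin 8 ≃ F8 where
  toFun a := ⟨a⟩
  invFun a := a.v
  left_inv _ := rfl
  right_inv _ := rfl

instance : Fintype F8 := Fintype.ofEquiv (Fin 8) equivFin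

def red (x : ℕ) : ℕ :=
  let y := if x.testBit 4 then x ^^^ 22 else x
  if y.testBit 3 then y ^^^ 11 else y

def mulN (a b : ℕ) : ℕ :=
  red ((if b.testBit 0 then a else 0) ^^^ (if b.testBit 1 then 2 * a else 0) ^^^
    (if b.testBit 2 then 4 * a else 0))

def add (a b : F8) : F8 := ⟨Fin.ofNat 8 (a.v.val ^^^ b.v.val)⟩
def mul (a b : F8) : F8 := ⟨Fin.ofNat 8 (mulN a.v.val b.v.val)⟩

instance : Zero F8 := ⟨⟨0⟩⟩
instance : One F8 := ⟨⟨1⟩⟩
instance : Add F8 := ⟨add⟩
instance : Mul F8 := ⟨mul⟩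
instance : Neg F8 := ⟨id⟩

theorem add_assoc' : ∀ a b c : F8, a + b + c = a + (b + c) := by decide +kernel
theorem mul_assoc' : ∀ a b c : F8, a * b * c = a * (b * c) := by decide +kernel
theorem ldist : ∀ a b c : F8, a * (b + c) = a * b + a * c := by decide +kernel
theorem rdist : ∀ a b c : F8, (a + b) * c = a * c + b * c := by decide +kernel
theorem add_comm' : ∀ a b : F8, a + b = b + a := by decide +kernel
theorem mul_comm' : ∀ a b : F8, a * b = b * a := by decide +kernel
theorem zero_add' : ∀ a : F8, 0 + a = a := by decide +kernel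
theorem add_zero' : ∀ a : F8, a + 0 = a := by decide +kernel
theorem one_mul' : ∀ a : F8, 1 * a = a := by decide +kernel
theorem mul_one' : ∀ a : F8, a * 1 = a := by decide +kernel
theorem zero_mul' : ∀ a : F8, 0 * a = 0 := by decide +kernel
theorem mul_zero' : ∀ a : F8, a * 0 = 0 := by decide +kernel
theorem neg_add' : ∀ a : F8, -a + a = 0 := by decide +kernel

instance : CommRing F8 where
  add_assoc := add_assoc'
  zero_add := zero_add'
  add_zero := add_zero'
  add_comm := add_comm'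
  nsmul := nsmulRec
  mul_assoc := mul_assoc'
  one_mul := one_mul'
  mul_one := mul_one'
  mul_comm := mul_comm'
  left_distrib := ldist
  right_distrib := rdist
  zero_mul := zero_mul'
  mul_zero := mul_zero'
  neg_add_cancel := neg_add'
  zsmul := zsmulRec

theorem isField : IsField F8 where
  exists_pair_ne := ⟨0, 1, by decide⟩
  mul_comm := mul_comm'
  mul_inv_cancel := by
    have : ∀ a : F8, a ≠ 0 → ∃ b, a * b = 1 := by decide +kernel
    exact fun {a} h => this a h

end F8

open F8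

def al : F8 := ⟨2⟩

theorem card8 : Fintype.card F8 = 2 ^ 3 := by
  rw [← Fintype.card_congr equivFin]; rfl

theorem order8 : orderOf al = 2 ^ 3 - 1 := by
  refine (orderOf_eq_iff (by norm_num)).2 ⟨by decide +kernel, ?_⟩
  have : ∀ m < 7, 0 < m → al ^ m ≠ 1 := by decide +kernel
  exact this

def g8 (x : F8) : ZMod 2 := if (53 : ℕ).testBit x.v.val then 1 else 0

theorem orth8 : ∀ l : F8, l ≠ 1 → ∑ x : F8, (-1 : ℤ) ^ (g8 (l * x) + g8 x).val = 0 := by
  decide +kernel

theorem nonaff8 : ¬ ∀ x y, g8 (x + y) = g8 x + g8 y + g8 0 := by decide +kernel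

def s8 (k : ℕ) : ZMod 2 := if (23856 : ℕ).testBit (k % 15) then 1 else 0

theorem s8_per (k : ℕ) : s8 (k + 15) = s8 k := by
  unfold s8; rw [Nat.add_mod_right]

theorem s8_mod (k i : ℕ) : s8 (k + i) = s8 (k % 15 + i) := by
  unfold s8; rw [Nat.mod_add_mod]

theorem rec8 (k : ℕ) : s8 (k + 4) = 0 + s8 k + g8 (∑ j : Fin 3, ((s8 (k + (j + 1))).val : F8) *
    al ^ (j : ℕ)) := by
  have h : ∀ k < 15, s8 (k + 4) = 0 + s8 (k + 0) + g8 (∑ j : Fin 3,
      ((s8 (k + (j + 1))).val : F8) * al ^ (j : ℕ)) := by decide +kernel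
  have h2 := h (k % 15) (Nat.mod_lt _ (by norm_num))
  rw [← s8_mod, ← s8_mod] at h2
  simp only [← s8_mod] at h2
  exact h2

theorem span8 : IsSpan 4 (fun k => s8 k + 1) := by
  refine ⟨fun k => by show s8 (k + 15) + 1 = _; rw [s8_per], ?_⟩
  have h : ∀ w : Fin 4 → ZMod 2, w ≠ 0 → ∃ k < 15, (∀ i : Fin 4, s8 (k + i) + 1 = w i) ∧
      ∀ j < 15, (∀ i : Fin 4, s8 (j + i) + 1 = w i) → j = k := by decide +kernel
  intro w hw
  obtain ⟨k, hk, h1, h2⟩ := h w hw
  exact ⟨k, ⟨hk, h1⟩, fun j hj => h2 j hj.1 hj.2⟩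

def w8 (k : ℕ) : ZMod 2 := if (31010 : ℕ).testBit k then 1 else 0

theorem w8_eq : ∀ i < 30, ∑ k ∈ Finset.range 15, w8 k * s8 (k + i) = if i % 15 = 0 then 1 else 0 := by
  decide +kernel

theorem lin8 : 2 ^ 4 - 2 < linSpan s8 := by
  have hne : {L | Gen s8 L}.Nonempty := ⟨15, gen_period s8 15 (by norm_num) s8_per⟩
  have h1 : Gen s8 (linSpan s8) := Nat.sInf_mem hne
  by_contra hcon
  push Not at hcon
  generalize linSpan s8 = L at h1 hcon
  have hL : L ≤ 14 := hcon
  obtain ⟨c, hc⟩ := h1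
  have e1 : ∑ k ∈ Finset.range 15, w8 k * s8 (k + 15) = 1 := by
    rw [w8_eq 15 (by norm_num)]; rfl
  have e2 : ∑ k ∈ Finset.range 15, w8 k * s8 (k + 15) = 0 := by
    have : ∀ k, s8 (k + 15) = ∑ i : Fin L, c i * s8 (k + (15 - L + i)) := fun k => by
      have h := hc (k + (15 - L))
      rw [add_assoc, Nat.sub_add_cancel (by omega)] at h
      rw [h]
      exact Finset.sum_congr rfl fun i _ => by rw [add_assoc]
    simp only [this, Finset.mul_sum]
    rw [Finset.sum_comm]
    refine Finset.sum_eq_zero fun i _ => ?_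
    have h3 : ∀ k, w8 k * (c i * s8 (k + (15 - L + i))) = c i * (w8 k * s8 (k + (15 - L + i))) :=
      fun k => by ring
    simp only [h3]
    rw [← Finset.mul_sum, w8_eq _ (by have := i.2; omega), if_neg (by have := i.2; omega), mul_zero]
  rw [e1] at e2
  exact one_ne_zero e2

end Pool.Agent.H61.Lsp
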