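import Pool.Graph.R_pool_sql_team_ae5b0c61.H40.SpanDefs

set_option autoImplicit false

/-! Complementing a span `n` sequence raises the linear span by exactly one. -/

namespace Pool.Agent.H61.Lsp

open Polynomial Pool.Agent.H40.Span

abbrev Sq : Type := ℕ → ZMod 2

/-- The shift. -/
def E : Sq →ₗ[ZMod 2] Sq where
  toFun s k := s (k + 1)
  map_add' _ _ := rfl
  map_smul' _ _ := rfl

theorem E_pow (s : Sq) (i k : ℕ) : (E ^ i) s k = s (k + i) := by
  induction i generalizing s k with
  | zero => rfl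
  | succ i ih =>
    rw [pow_succ]
    show (E ^ i) (E s) k = _
    rw [ih]
    show s (k + i + 1) = _
    rw [add_assoc]

theorem act (f : (ZMod 2)[X]) (s : Sq) (k : ℕ) :
    (aeval E f) s k = ∑ i ∈ Finset.range (f.natDegree + 1), f.coeff i * s (k + i) := by
  rw [aeval_eq_sum_range]
  simp only [LinearMap.sum_apply, Finset.sum_apply, LinearMap.smul_apply, Pi.smul_apply, E_pow,
    smul_eq_mul]

/-- A register of length `L` generates `s`. -/
def Gen (s : Sq) (L : ℕ) : Prop := ∃ c : Fin L → ZMod 2, ∀ k, s (k + L) = ∑ i : Fin L, c i * s (k + i)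

theorem two (a : ZMod 2) : a + a = 0 := by revert a; decide

theorem gen_iff (s : Sq) (L : ℕ) :
    Gen s L ↔ ∃ f : (ZMod 2)[X], f.Monic ∧ f.natDegree = L ∧ aeval E f s = 0 := by
  constructor
  · rintro ⟨c, hc⟩
    have hdeg : (∑ i : Fin L, C (c i) * X ^ (i : ℕ) : (ZMod 2)[X]).degree < L := by
      refine (degree_sum_le _ _).trans_lt ?_
      refine (Finset.sup_lt_iff (WithBot.bot_lt_coe _)).2 fun i _ => ?_
      exact (degree_C_mul_X_pow_le _ _).trans_lt (WithBot.coe_lt_coe.2 i.2)
    refine ⟨X ^ L + ∑ i : Fin L, C (c i) * X ^ (i : ℕ), monic_X_pow_add hdeg, ?_, ?_⟩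
    · rw [natDegree_add_eq_left_of_degree_lt, natDegree_X_pow]
      rwa [degree_X_pow]
    · funext k
      rw [map_add, map_sum, LinearMap.add_apply, LinearMap.sum_apply, Pi.add_apply,
        Finset.sum_apply, map_pow, aeval_X, E_pow, hc k]
      have : ∀ i : Fin L, (aeval E (C (c i) * X ^ (i : ℕ) : (ZMod 2)[X])) s k
          = c i * s (k + i) := fun i => by
        rw [map_mul, aeval_C, map_pow, aeval_X]
        show (algebraMap (ZMod 2) (Module.End (ZMod 2) Sq) (c i)) ((E ^ (i : ℕ)) s) k = _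
        rw [Module.algebraMap_end_apply, Pi.smul_apply, E_pow, smul_eq_mul]
      simp only [this]
      exact two _
  · rintro ⟨f, hm, rfl, hf⟩
    refine ⟨fun i => f.coeff i, fun k => ?_⟩
    have h := congrFun hf k
    rw [act, Finset.sum_range_succ, hm.coeff_natDegree, one_mul, Finset.sum_range] at h
    have h' : s (k + f.natDegree) + (∑ i : Fin f.natDegree, f.coeff i * s (k + i)) = 0 := by
      rw [add_comm]; exact h
    have := congrArg (· + ∑ i : Fin f.natDegree, f.coeff i * s (k + i)) h'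
    simpa only [add_assoc, two, add_zero, zero_add] using this

/-- The complement. -/
def cpl (s : Sq) : Sq := fun k => s k + 1

theorem act_one (f : (ZMod 2)[X]) (k : ℕ) : (aeval E f) (fun _ => 1) k = f.eval 1 := by
  rw [act, eval_eq_sum_range]
  simp

theorem sum_act (f : (ZMod 2)[X]) (s : Sq) (N : ℕ) (hp : ∀ k, s (k + N) = s k) :
    ∑ k ∈ Finset.range N, (aeval E f) s k = f.eval 1 * ∑ k ∈ Finset.range N, s k := by
  have key : ∀ i, ∑ k ∈ Finset.range N, s (k + i) = ∑ k ∈ Finset.range N, s k := by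
    intro i
    induction i with
    | zero => rfl
    | succ i ih =>
      rw [← ih]
      have h1 := Finset.sum_range_succ (fun k => s (k + i)) N
      have h2 := Finset.sum_range_succ' (fun k => s (k + i)) N
      have h3 : s (N + i) = s (0 + i) := by
        rw [add_comm N i, hp, zero_add]
      rw [h1, h3] at h2
      have h4 := add_right_cancel h2
      rw [h4]
      refine Finset.sum_congr rfl fun k _ => ?_
      rw [add_right_comm, add_assoc]
  simp only [act]
  rw [Finset.sum_comm, eval_eq_sum_range, Finset.sum_mul]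
  refine Finset.sum_congr rfl fun i _ => ?_
  rw [← Finset.mul_sum, key, one_pow, mul_one]

theorem eval_mod (f : (ZMod 2)[X]) (t : Sq) (N : ℕ) (hodd : (N : ZMod 2) = 1)
    (hp : ∀ k, t (k + N) = t k) (hs : ∑ k ∈ Finset.range N, t k = 0) (a : ZMod 2)
    (h : ∀ k, (aeval E f) t k = a) : a = 0 := by
  have h1 := sum_act f t N hp
  rw [hs, mul_zero, Finset.sum_congr rfl fun k _ => h k, Finset.sum_const, Finset.card_range,
    nsmul_eq_mul, hodd, one_mul] at h1
  exact h1

/-- The main equivalence. -/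
theorem gen_cpl (t : Sq) (N : ℕ) (hodd : (N : ZMod 2) = 1)
    (hp : ∀ k, t (k + N) = t k) (hs : ∑ k ∈ Finset.range N, t k = 0) (L : ℕ) :
    Gen (cpl t) (L + 1) ↔ Gen t L := by
  have hcpl : cpl t = t + fun _ => 1 := rfl
  constructor
  · intro h
    obtain ⟨f, hm, hd, hf⟩ := (gen_iff _ _).1 h
    have h1 : ∀ k, (aeval E f) t k = f.eval 1 := fun k => by
      have := congrFun hf k
      rw [hcpl, map_add, Pi.add_apply, act_one] at this
      have h2 := congrArg (· + f.eval 1) this
      simpa only [add_assoc, two, add_zero, Pi.zero_apply, zero_add] using h2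
    have h0 : f.eval 1 = 0 := eval_mod f t N hodd hp hs _ h1
    obtain ⟨q, rfl⟩ := dvd_iff_isRoot.2 h0
    have hX : (X - C (1 : ZMod 2)).Monic := monic_X_sub_C 1
    have hq : q.Monic := hX.of_mul_monic_left hm
    rw [hX.natDegree_mul hq, natDegree_X_sub_C, add_comm] at hd
    have hqd : q.natDegree = L := Nat.succ_injective hd
    have h2 : ∀ k, (aeval E q) t (k + 1) = (aeval E q) t k := fun k => by
      have h3 := h1 k
      rw [h0, map_mul, map_sub, aeval_X, aeval_C] at h3
      change (E ((aeval E q) t) - (algebraMap (ZMod 2) (Module.End (ZMod 2) Sq) 1)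
        ((aeval E q) t)) k = 0 at h3
      rw [Module.algebraMap_end_apply, one_smul, Pi.sub_apply, sub_eq_zero] at h3
      exact h3
    have h3 : ∀ k, (aeval E q) t k = (aeval E q) t 0 := fun k => by
      induction k with
      | zero => rfl
      | succ k ih => rw [h2, ih]
    have h4 := eval_mod q t N hodd hp hs _ h3
    refine (gen_iff _ _).2 ⟨q, hq, hqd, ?_⟩
    funext k
    rw [h3, h4]; rfl
  · intro h
    obtain ⟨q, hq, hd, hf⟩ := (gen_iff _ _).1 h
    have hX : (X - C (1 : ZMod 2)).Monic := monic_X_sub_C 1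
    refine (gen_iff _ _).2 ⟨(X - C 1) * q, hX.mul hq, ?_, ?_⟩
    · rw [hX.natDegree_mul hq, natDegree_X_sub_C, hd, add_comm]
    · rw [hcpl, map_add]
      have e1 : (aeval E ((X - C (1 : ZMod 2)) * q)) t = 0 := by
        rw [map_mul]
        change (aeval E (X - C (1 : ZMod 2))) ((aeval E q) t) = 0
        rw [hf, map_zero]
      have e2 : (aeval E ((X - C (1 : ZMod 2)) * q)) (fun _ => 1) = 0 := by
        funext k
        rw [act_one]
        simp
      rw [e1, e2, add_zero]

theorem not_gen_zero (t : Sq) (N : ℕ) (hodd : (N : ZMod 2) = 1)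
    (hs : ∑ k ∈ Finset.range N, t k = 0) : ¬ Gen (cpl t) 0 := by
  rintro ⟨c, hc⟩
  have h : ∀ k, t k = 1 := fun k => by
    have := hc k
    simp only [cpl, add_zero, Finset.univ_eq_empty, Finset.sum_empty] at this
    have h2 := congrArg (· + 1) this
    simpa only [add_assoc, two, add_zero, zero_add] using h2
  rw [Finset.sum_congr rfl fun k _ => h k, Finset.sum_const, Finset.card_range, nsmul_eq_mul,
    hodd, one_mul] at hs
  exact one_ne_zero hs

theorem gen_period (t : Sq) (N : ℕ) (hN : 0 < N) (hp : ∀ k, t (k + N) = t k) : Gen t N := by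
  refine ⟨fun i => if (i : ℕ) = 0 then 1 else 0, fun k => ?_⟩
  rw [Finset.sum_eq_single (⟨0, hN⟩ : Fin N)]
  · simp [hp]
  · intro b _ hb
    show (if (b : ℕ) = 0 then (1 : ZMod 2) else 0) * _ = 0
    rw [if_neg (fun h => hb (Fin.ext h)), zero_mul]
  · intro h; exact absurd (Finset.mem_univ _) h

theorem linSpan_cpl (t : Sq) (N : ℕ) (hN : 0 < N) (hodd : (N : ZMod 2) = 1)
    (hp : ∀ k, t (k + N) = t k) (hs : ∑ k ∈ Finset.range N, t k = 0) :
    linSpan (cpl t) = linSpan t + 1 := by
  have hne : {L | Gen t L}.Nonempty := ⟨N, gen_period t N hN hp⟩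
  have h1 : Gen t (linSpan t) := Nat.sInf_mem hne
  have h2 : Gen (cpl t) (linSpan t + 1) := (gen_cpl t N hodd hp hs _).2 h1
  have hne' : {L | Gen (cpl t) L}.Nonempty := ⟨_, h2⟩
  have h3 : Gen (cpl t) (linSpan (cpl t)) := Nat.sInf_mem hne'
  refine le_antisymm (Nat.sInf_le h2) ?_
  rcases Nat.eq_zero_or_pos (linSpan (cpl t)) with h | h
  · rw [h] at h3
    exact absurd h3 (not_gen_zero t N hodd hs)
  · obtain ⟨M, hM⟩ := Nat.exists_eq_succ_of_ne_zero h.ne'
    rw [hM] at h3 ⊢
    exact Nat.succ_le_succ (Nat.sInf_le ((gen_cpl t N hodd hp hs M).1 h3))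

theorem cast_odd (n : ℕ) (hn : 1 ≤ n) : ((2 ^ n - 1 : ℕ) : ZMod 2) = 1 := by
  rw [Nat.cast_sub Nat.one_le_two_pow, Nat.cast_pow, Nat.cast_ofNat,
    show (2 : ZMod 2) = 0 from rfl, zero_pow (by omega), Nat.cast_one]
  rfl

theorem sum_span (n : ℕ) (hn : 2 ≤ n) (t : Sq) (h : IsSpan n t) :
    ∑ k ∈ Finset.range (2 ^ n - 1), t k = 0 := by
  classical
  choose! κ hκ using fun w hw => (h.2 w hw).exists
  have i0 : Fin n := ⟨0, by omega⟩
  have hinj : ∀ w₁ w₂ : Fin n → ZMod 2, w₁ ≠ 0 → w₂ ≠ 0 → κ w₁ = κ w₂ → w₁ = w₂ := by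
    intro w₁ w₂ h1 h2 he
    funext i
    rw [← (hκ w₁ h1).2 i, ← (hκ w₂ h2).2 i, he]
  have hcard : (Finset.univ.filter fun w : Fin n → ZMod 2 => w ≠ 0).card = 2 ^ n - 1 := by
    rw [Finset.filter_ne' , Finset.card_erase_of_mem (Finset.mem_univ _), Finset.card_univ,
      Fintype.card_fun, ZMod.card, Fintype.card_fin]
  have hsum : ∑ k ∈ Finset.range (2 ^ n - 1), t k
      = ∑ w ∈ Finset.univ.filter (fun w : Fin n → ZMod 2 => w ≠ 0), w ⟨0, by omega⟩ := by
    symm
    refine Finset.sum_bij (fun w _ => κ w) ?_ ?_ ?_ ?_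
    · intro w hw
      exact Finset.mem_range.2 (hκ w (Finset.mem_filter.1 hw).2).1
    · intro w₁ h1 w₂ h2 he
      exact hinj w₁ w₂ (Finset.mem_filter.1 h1).2 (Finset.mem_filter.1 h2).2 he
    · intro k hk
      have himg : (Finset.univ.filter fun w : Fin n → ZMod 2 => w ≠ 0).image κ
          = Finset.range (2 ^ n - 1) := by
        refine Finset.eq_of_subset_of_card_le ?_ ?_
        · intro j hj
          obtain ⟨w, hw, rfl⟩ := Finset.mem_image.1 hj
          exact Finset.mem_range.2 (hκ w (Finset.mem_filter.1 hw).2).1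
        · rw [Finset.card_image_of_injOn, hcard, Finset.card_range]
          intro w₁ h1 w₂ h2 he
          exact hinj w₁ w₂ (Finset.mem_filter.1 h1).2 (Finset.mem_filter.1 h2).2 he
      rw [← himg] at hk
      obtain ⟨w, hw, rfl⟩ := Finset.mem_image.1 hk
      exact ⟨w, hw, rfl⟩
    · intro w hw
      have := (hκ w (Finset.mem_filter.1 hw).2).2 ⟨0, by omega⟩
      exact this.symm
  have hall : ∑ w ∈ Finset.univ.filter (fun w : Fin n → ZMod 2 => w ≠ 0), w ⟨0, by omega⟩
      = ∑ w : Fin n → ZMod 2, w ⟨0, by omega⟩ := by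
    refine Finset.sum_filter_of_ne fun w _ hw h0 => hw ?_
    rw [h0]; rfl
  rw [hsum, hall]
  have hne : (⟨0, by omega⟩ : Fin n) ≠ ⟨1, by omega⟩ := fun h => by
    have := congrArg Fin.val h
    simp at this
  refine Finset.sum_involution (fun w _ => w + Pi.single ⟨1, by omega⟩ 1) ?_ ?_ ?_ ?_
  · intro w _
    rw [Pi.add_apply, Pi.single_eq_of_ne hne, add_zero]
    exact two _
  · intro w _ _ he
    have := congrFun he ⟨1, by omega⟩
    rw [Pi.add_apply, Pi.single_eq_same] at this
    exact one_ne_zero (add_eq_left.1 this)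
  · intro w _; exact Finset.mem_univ _
  · intro w _
    funext i
    show w i + _ + _ = w i
    rw [add_assoc, two, add_zero]

theorem linSpan_compl (n : ℕ) (hn : 2 ≤ n) (t : Sq) (h : IsSpan n t) :
    linSpan (fun k => t k + 1) = linSpan t + 1 := by
  have h2 : 2 ^ 1 < 2 ^ n := Nat.pow_lt_pow_right (by norm_num) (by omega)
  exact linSpan_cpl t (2 ^ n - 1) (by omega) (cast_odd n (by omega)) h.1 (sum_span n hn t h)

end Pool.Agent.H61.Lsp
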